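import Mathlib
import Pool.Agent.W945.Pw.Stm

/-! # PW-HYB -/

set_option autoImplicit false

namespace Pool.Agent.W460.Pw.HYB

open Finset Pool.Agent.W945.Pw

theorem avg_equiv {Ω Ω' : Type} [Fintype Ω] [Fintype Ω'] (e : Ω ≃ Ω') (f : Ω' → ℝ) :
    avg (fun x => f (e x)) = avg f := by
  unfold avg
  rw [Equiv.sum_comp e f, Fintype.card_congr e]

theorem avg_prod {Ω Ω' : Type} [Fintype Ω] [Fintype Ω'] (f : Ω × Ω' → ℝ) :
    avg f = avg (fun a => avg (fun b => f (a, b))) := by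
  unfold avg
  rw [Fintype.sum_prod_type, Fintype.card_prod, ← Finset.sum_div, Nat.cast_mul, div_div,
    mul_comm]

theorem avg_sub {Ω : Type} [Fintype Ω] (f g : Ω → ℝ) :
    avg f - avg g = avg (fun x => f x - g x) := by
  unfold avg
  rw [Finset.sum_sub_distrib, sub_div]

theorem avg_le {Ω : Type} [Fintype Ω] [Nonempty Ω] (f : Ω → ℝ) (c : ℝ) (h : ∀ x, |f x| ≤ c) :
    |avg f| ≤ c := by
  unfold avg
  have h0 : (0 : ℝ) < (Fintype.card Ω : ℝ) := by exact_mod_cast Fintype.card_pos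
  rw [abs_div, abs_of_pos h0, div_le_iff₀ h0]
  calc |∑ ω, f ω| ≤ ∑ ω, |f ω| := Finset.abs_sum_le_sum_abs _ _
    _ ≤ ∑ _ω : Ω, c := Finset.sum_le_sum fun x _ => h x
    _ = c * (Fintype.card Ω : ℝ) := by
      rw [Finset.sum_const, Finset.card_univ, nsmul_eq_mul, mul_comm]

theorem dep_mix {n : ℕ} {P : Finset (Fin n)} {A : (Fin n → Bool) → ℝ} (h : Dep P A)
    (d t : Fin n → Bool) : Dep P (fun u => A (mix d t u)) := by
  intro x y hxy
  apply h
  intro v hv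
  unfold mix
  rw [hxy v hv]

theorem narrow_mix {n w : ℕ} {ρ : Fin n → ℕ} {f : (Fin n → Bool) → ℝ} (h : Narrow w ρ f)
    (d t : Fin n → Bool) : Narrow w ρ (fun u => f (mix d t u)) := by
  intro j
  obtain ⟨A, B, hA, hB, hPA, hPB, hf⟩ := h j
  exact ⟨fun i u => A i (mix d t u), fun i u => B i (mix d t u), fun i x => hA i _,
    fun i x => hB i _, fun i => dep_mix (hPA i) d t, fun i => dep_mix (hPB i) d t,
    fun x => hf _⟩

theorem main : HYB.Stm := by
  intro n w ρ δ Ω₁ Ω₂ _ _ _ _ D T hyp ℓ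
  induction ℓ with
  | zero =>
    intro f _
    have h1 : avg (fun p : (Fin 0 → Ω₁ × Ω₂) × (Fin n → Bool) => f (rounds D T 0 p.1 p.2)) =
        avg f := by
      rw [avg_prod]
      have h2 : (fun a : Fin 0 → Ω₁ × Ω₂ => avg (fun b : Fin n → Bool =>
          f (rounds D T 0 a b))) = fun _ => avg f := rfl
      show avg (fun a : Fin 0 → Ω₁ × Ω₂ => avg (fun b : Fin n → Bool =>
          f (rounds D T 0 a b))) = _
      rw [h2]
      unfold avg
      rw [Finset.sum_const, Finset.card_univ, nsmul_eq_mul]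
      have h0 : (Fintype.card (Fin 0 → Ω₁ × Ω₂) : ℝ) ≠ 0 := by
        exact_mod_cast Fintype.card_ne_zero
      rw [mul_div_assoc, mul_comm, div_mul_cancel₀ _ h0]
    rw [h1, sub_self, abs_zero, Nat.cast_zero, zero_mul]
  | succ ℓ ih =>
    intro f hf
    set e : (Ω₁ × Ω₂) × ((Fin ℓ → Ω₁ × Ω₂) × (Fin n → Bool)) ≃
        (Fin (ℓ + 1) → Ω₁ × Ω₂) × (Fin n → Bool) :=
      (Equiv.prodAssoc _ _ _).symm.trans
        ((Fin.consEquiv (fun _ => Ω₁ × Ω₂)).prodCongr (Equiv.refl _)) with he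
    have h1 : avg (fun p : (Fin (ℓ + 1) → Ω₁ × Ω₂) × (Fin n → Bool) =>
        f (rounds D T (ℓ + 1) p.1 p.2)) =
        avg (fun a : Ω₁ × Ω₂ => avg (fun p : (Fin ℓ → Ω₁ × Ω₂) × (Fin n → Bool) =>
          f (mix (D a.1) (T a.2) (rounds D T ℓ p.1 p.2)))) := by
      rw [← avg_equiv e, avg_prod]
      rfl
    have h2 : avg (fun p : Ω₁ × Ω₂ × (Fin n → Bool) => f (mix (D p.1) (T p.2.1) p.2.2)) =
        avg (fun a : Ω₁ × Ω₂ => avg (fun u : Fin n → Bool => f (mix (D a.1) (T a.2) u))) := by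
      rw [← avg_equiv (Equiv.prodAssoc Ω₁ Ω₂ (Fin n → Bool)), avg_prod]
      rfl
    have h3 := hyp f hf
    rw [h2] at h3
    rw [h1]
    have h4 : |avg (fun a : Ω₁ × Ω₂ => avg (fun p : (Fin ℓ → Ω₁ × Ω₂) × (Fin n → Bool) =>
          f (mix (D a.1) (T a.2) (rounds D T ℓ p.1 p.2)))) -
        avg (fun a : Ω₁ × Ω₂ => avg (fun u : Fin n → Bool => f (mix (D a.1) (T a.2) u)))| ≤
        ℓ * δ := by
      rw [avg_sub]
      apply avg_le
      intro a
      exact ih (fun u => f (mix (D a.1) (T a.2) u)) (narrow_mix hf _ _)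
    have h5 := abs_add_le (avg (fun a : Ω₁ × Ω₂ => avg (fun p : (Fin ℓ → Ω₁ × Ω₂) ×
          (Fin n → Bool) => f (mix (D a.1) (T a.2) (rounds D T ℓ p.1 p.2)))) -
        avg (fun a : Ω₁ × Ω₂ => avg (fun u : Fin n → Bool => f (mix (D a.1) (T a.2) u))))
      (avg (fun a : Ω₁ × Ω₂ => avg (fun u : Fin n → Bool => f (mix (D a.1) (T a.2) u))) - avg f)
    rw [sub_add_sub_cancel] at h5
    refine h5.trans ?_
    push_cast
    linarith

end Pool.Agent.W460.Pw.HYB
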